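import Mathlib

/-! Twisting a coprime triple `a + b = c` into three perfect powers with pairwise coprime exponents. -/

set_option autoImplicit false

namespace Pool.Agent.U514.WA

/-- the product of the primes dividing `n` -/
def rad (n : ℕ) : ℕ := ∏ l ∈ n.primeFactors, l

theorem rad_pos (n : ℕ) : 0 < rad n :=
  Finset.prod_pos fun l hl => (Nat.prime_of_mem_primeFactors hl).pos

theorem rad_two_le {n : ℕ} (h : 2 ≤ n) : 2 ≤ rad n := by
  obtain ⟨l, hl, hd⟩ := Nat.exists_prime_and_dvd (show n ≠ 1 by omega)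
  have hm : l ∈ n.primeFactors := Nat.mem_primeFactors.2 ⟨hl, hd, by omega⟩
  have : l ∣ rad n := Finset.dvd_prod_of_mem _ hm
  exact hl.two_le.trans (Nat.le_of_dvd (rad_pos n) this)

theorem rad_le {n : ℕ} (h : 0 < n) : rad n ≤ n :=
  Nat.le_of_dvd h (Nat.prod_primeFactors_dvd n)

theorem rad_mono {m n : ℕ} (h : m ∣ n) (hn : n ≠ 0) : rad m ≤ rad n := by
  refine Nat.le_of_dvd (rad_pos n) ?_
  exact Finset.prod_dvd_prod_of_subset _ _ _ (Nat.primeFactors_mono h hn)

theorem crt {p q r : ℕ} (hp : 0 < p) (hq : 0 < q) (hr : 0 < r) (hpq : p.Coprime q)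
    (hpr : p.Coprime r) (hqr : q.Coprime r) (x y z : ℕ) :
    ∃ t : ℕ, 0 < t ∧ t ≤ p * q * r ∧ p ∣ x + t ∧ q ∣ y + t ∧ r ∣ z + t := by
  obtain ⟨u, hu1, hu2⟩ := Nat.chineseRemainder hpq ((p - 1) * x) ((q - 1) * y)
  obtain ⟨v, hv1, hv2⟩ := Nat.chineseRemainder (Nat.Coprime.mul_left hpr hqr) u ((r - 1) * z)
  have hN : 0 < p * q * r := by positivity
  have key : ∃ t : ℕ, 0 < t ∧ t ≤ p * q * r ∧ t ≡ v [MOD p * q * r] := by
    rcases Nat.eq_zero_or_pos (v % (p * q * r)) with h | h
    · refine ⟨p * q * r, hN, le_rfl, ?_⟩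
      unfold Nat.ModEq
      rw [Nat.mod_self, h]
    · exact ⟨v % (p * q * r), h, (Nat.mod_lt _ hN).le, Nat.mod_modEq _ _⟩
  obtain ⟨t, ht0, ht1, ht2⟩ := key
  refine ⟨t, ht0, ht1, ?_, ?_, ?_⟩
  · have h1 : t ≡ (p - 1) * x [MOD p] :=
      ((ht2.of_mul_right r).of_mul_right q).trans ((hv1.of_mul_right q).trans hu1)
    have h2 : x + t ≡ x + (p - 1) * x [MOD p] := Nat.ModEq.add_left x h1
    have h3 : x + (p - 1) * x = p * x := by
      obtain ⟨k, rfl⟩ : ∃ k, p = k + 1 := ⟨p - 1, by omega⟩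
      simp only [Nat.add_sub_cancel]; ring
    rw [h3] at h2
    exact (Nat.modEq_zero_iff_dvd.1 (h2.trans (Nat.modEq_zero_iff_dvd.2 (dvd_mul_right _ _))))
  · have h0 : t ≡ v [MOD q] := by
      have : t ≡ v [MOD p * q] := ht2.of_mul_right r
      exact this.of_mul_left p
    have h1 : t ≡ (q - 1) * y [MOD q] := h0.trans ((hv1.of_mul_left p).trans hu2)
    have h2 : y + t ≡ y + (q - 1) * y [MOD q] := Nat.ModEq.add_left y h1
    have h3 : y + (q - 1) * y = q * y := by
      obtain ⟨k, rfl⟩ : ∃ k, q = k + 1 := ⟨q - 1, by omega⟩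
      simp only [Nat.add_sub_cancel]; ring
    rw [h3] at h2
    exact (Nat.modEq_zero_iff_dvd.1 (h2.trans (Nat.modEq_zero_iff_dvd.2 (dvd_mul_right _ _))))
  · have h0 : t ≡ v [MOD r] := ht2.of_mul_left (p * q)
    have h1 : t ≡ (r - 1) * z [MOD r] := h0.trans hv2
    have h2 : z + t ≡ z + (r - 1) * z [MOD r] := Nat.ModEq.add_left z h1
    have h3 : z + (r - 1) * z = r * z := by
      obtain ⟨k, rfl⟩ : ∃ k, r = k + 1 := ⟨r - 1, by omega⟩
      simp only [Nat.add_sub_cancel]; ring
    rw [h3] at h2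
    exact (Nat.modEq_zero_iff_dvd.1 (h2.trans (Nat.modEq_zero_iff_dvd.2 (dvd_mul_right _ _))))

theorem exists_pow {n p : ℕ} (hp : 0 < p) (hn : n ≠ 0) (h : ∀ l, p ∣ n.factorization l) :
    ∃ A : ℕ, A ≠ 0 ∧ n = A ^ p ∧ A.primeFactors = n.primeFactors := by
  set g : ℕ →₀ ℕ := n.factorization.mapRange (fun x => x / p) (Nat.zero_div p) with hg
  have hs : ∀ l ∈ g.support, l.Prime := by
    intro l hl
    have : l ∈ n.factorization.support := Finsupp.support_mapRange hl
    exact Nat.prime_of_mem_primeFactors (by simpa using this)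
  have hf : (g.prod fun l e => l ^ e).factorization = g := Nat.prod_pow_factorization_eq_self hs
  have h0 : (g.prod fun l e => l ^ e) ≠ 0 := by
    rw [Finsupp.prod, Finset.prod_ne_zero_iff]
    intro l hl
    exact pow_ne_zero _ (hs l hl).ne_zero
  have h1 : n = (g.prod fun l e => l ^ e) ^ p := by
    refine Nat.eq_of_factorization_eq hn (pow_ne_zero _ h0) ?_
    intro l
    rw [Nat.factorization_pow, hf]
    simp only [Finsupp.smul_apply, smul_eq_mul, hg, Finsupp.mapRange_apply]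
    rw [Nat.mul_div_cancel' (h l)]
  refine ⟨_, h0, h1, ?_⟩
  conv_rhs => rw [h1]
  rw [Nat.primeFactors_pow _ hp.ne']

/-- The twist. -/
theorem twist {p q r : ℕ} (hp : 0 < p) (hq : 0 < q) (hr : 0 < r) (hpq : p.Coprime q)
    (hpr : p.Coprime r) (hqr : q.Coprime r) {a b : ℕ} (ha : 0 < a) (hb : 0 < b)
    (hab : a.Coprime b) :
    ∃ t A B C : ℕ, 0 < t ∧ 0 < A ∧ 0 < B ∧ 0 < C ∧ t ∣ rad (a * b * (a + b)) ^ (p * q * r) ∧
      a * t = A ^ p ∧ b * t = B ^ q ∧ (a + b) * t = C ^ r ∧
      A.primeFactors = (a * b * (a + b)).primeFactors ∧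
      B.primeFactors = (a * b * (a + b)).primeFactors ∧
      C.primeFactors = (a * b * (a + b)).primeFactors := by
  have hc : 0 < a + b := by omega
  have habc : a * b * (a + b) ≠ 0 := by positivity
  choose τ h0 h1 h2 h3 h4 using fun l : ℕ => crt hp hq hr hpq hpr hqr (a.factorization l)
    (b.factorization l) ((a + b).factorization l)
  set S := (a * b * (a + b)).primeFactors with hS
  set f : ℕ →₀ ℕ := Finsupp.onFinset S (fun l => if l ∈ S then τ l else 0)
    (by intro l hl; by_contra h; simp [h] at hl) with hf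
  have hfs : ∀ l ∈ f.support, l.Prime := by
    intro l hl
    have : l ∈ S := Finsupp.support_onFinset_subset hl
    exact Nat.prime_of_mem_primeFactors this
  have hfapp : ∀ l, f l = if l ∈ S then τ l else 0 := fun l => rfl
  set t := f.prod fun l e => l ^ e with ht
  have htf : t.factorization = f := Nat.prod_pow_factorization_eq_self hfs
  have ht0 : t ≠ 0 := by
    rw [ht, Finsupp.prod, Finset.prod_ne_zero_iff]
    intro l hl
    exact pow_ne_zero _ (hfs l hl).ne_zero
  have hnot : ∀ l, l ∉ S → a.factorization l = 0 ∧ b.factorization l = 0 ∧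
      (a + b).factorization l = 0 := by
    intro l hl
    by_cases hpl : l.Prime
    · have : ¬ l ∣ a * b * (a + b) := fun h => hl (Nat.mem_primeFactors.2 ⟨hpl, h, habc⟩)
      refine ⟨Nat.factorization_eq_zero_of_not_dvd fun h => this ?_,
        Nat.factorization_eq_zero_of_not_dvd fun h => this ?_,
        Nat.factorization_eq_zero_of_not_dvd fun h => this ?_⟩
      · exact Dvd.dvd.mul_right (Dvd.dvd.mul_right h _) _
      · exact Dvd.dvd.mul_right (Dvd.dvd.mul_left h _) _
      · exact Dvd.dvd.mul_left h _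
    · exact ⟨Nat.factorization_eq_zero_of_not_prime _ hpl,
        Nat.factorization_eq_zero_of_not_prime _ hpl,
        Nat.factorization_eq_zero_of_not_prime _ hpl⟩
  have hprime : ∀ x : ℕ, x ≠ 0 → x ∣ a * b * (a + b) → (x * t).primeFactors = S := by
    intro x hx hxd
    rw [Nat.primeFactors_mul hx ht0]
    have e1 : t.primeFactors = S := by
      rw [← Nat.support_factorization, htf]
      ext l
      rw [Finsupp.mem_support_iff, hfapp]
      constructor
      · intro h; by_contra h'; simp [h'] at h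
      · intro h; simp only [h, if_true]; exact (h0 l).ne'
    rw [e1, Finset.union_eq_right]
    exact Nat.primeFactors_mono hxd habc
  have da : a ∣ a * b * (a + b) := Dvd.dvd.mul_right (dvd_mul_right _ _) _
  have db : b ∣ a * b * (a + b) := Dvd.dvd.mul_right (dvd_mul_left _ _) _
  have dc : a + b ∣ a * b * (a + b) := dvd_mul_left _ _
  obtain ⟨A, hA0, hA, hAp⟩ := exists_pow hp (mul_ne_zero ha.ne' ht0) (n := a * t) (by
    intro l
    rw [Nat.factorization_mul ha.ne' ht0, htf, Finsupp.add_apply, hfapp]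
    by_cases hl : l ∈ S
    · simpa [hl] using h2 l
    · simp [hl, (hnot l hl).1])
  obtain ⟨B, hB0, hB, hBp⟩ := exists_pow hq (mul_ne_zero hb.ne' ht0) (n := b * t) (by
    intro l
    rw [Nat.factorization_mul hb.ne' ht0, htf, Finsupp.add_apply, hfapp]
    by_cases hl : l ∈ S
    · simpa [hl] using h3 l
    · simp [hl, (hnot l hl).2.1])
  obtain ⟨C, hC0, hC, hCp⟩ := exists_pow hr (mul_ne_zero hc.ne' ht0) (n := (a + b) * t) (by
    intro l
    rw [Nat.factorization_mul hc.ne' ht0, htf, Finsupp.add_apply, hfapp]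
    by_cases hl : l ∈ S
    · simpa [hl] using h4 l
    · simp [hl, (hnot l hl).2.2])
  refine ⟨t, A, B, C, Nat.pos_of_ne_zero ht0, Nat.pos_of_ne_zero hA0, Nat.pos_of_ne_zero hB0,
    Nat.pos_of_ne_zero hC0, ?_, hA, hB, hC, ?_, ?_, ?_⟩
  · rw [rad, ← Finset.prod_pow, ht, Finsupp.prod]
    have e1 : f.support ⊆ S := Finsupp.support_onFinset_subset
    refine dvd_trans ?_ (Finset.prod_dvd_prod_of_subset _ _ _ e1)
    refine Finset.prod_dvd_prod_of_dvd _ _ ?_
    intro l hl
    refine pow_dvd_pow _ ?_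
    rw [hfapp, if_pos (e1 hl)]
    exact h1 l
  · rw [hAp]; exact hprime a ha.ne' da
  · rw [hBp]; exact hprime b hb.ne' db
  · rw [hCp]; exact hprime (a + b) hc.ne' dc

theorem gcd_twist {a b t : ℕ} (hab : a.Coprime b) : Nat.gcd (a * t) ((a + b) * t) = t := by
  rw [Nat.gcd_mul_right]
  have : Nat.gcd a (a + b) = 1 := by
    have := (Nat.coprime_add_self_right (m := a) (n := b))
    rw [add_comm] 
    exact (Nat.coprime_add_self_right).2 hab
  rw [this, one_mul]

end Pool.Agent.U514.WA
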