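import Mathlib
import Pool.Agent.U514.WA.Twist

/-! Weak abc and solutions of `A ^ p + B ^ q = C ^ r` with a small common factor: the transfer maps. -/

set_option autoImplicit false

namespace Pool.Agent.U514.WA

open Real

theorem pow_dvd_full {E n : ℕ} (h : ∀ l : ℕ, l.Prime → l ∣ n → l ^ E ∣ n) : rad n ^ E ∣ n := by
  rw [rad, ← Finset.prod_pow]
  refine Finset.prod_dvd_of_isRelPrime ?_ ?_
  · intro x hx y hy hxy
    have hx' := Nat.prime_of_mem_primeFactors hx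
    have hy' := Nat.prime_of_mem_primeFactors hy
    exact Nat.coprime_iff_isRelPrime.1
      (Nat.Coprime.pow _ _ ((Nat.coprime_primes hx' hy').2 hxy))
  · intro l hl
    exact h l (Nat.prime_of_mem_primeFactors hl) (Nat.dvd_of_mem_primeFactors hl)

/-- violating triples give almost coprime solutions -/
theorem transfer {p q r : ℕ} (hp : 0 < p) (hq : 0 < q) (hr : 0 < r) (hpq : p.Coprime q)
    (hpr : p.Coprime r) (hqr : q.Coprime r) {δ : ℝ} (h0 : 0 < δ) (h1 : δ ≤ 1) {a b : ℕ}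
    (ha : 0 < a) (hb : 0 < b) (hab : a.Coprime b)
    (hv : (rad (a * b * (a + b)) : ℝ) ^ ((p * q * r : ℝ) * (1 - δ) / δ) ≤ ((a + b : ℕ) : ℝ)) :
    ∃ t A B C : ℕ, 0 < t ∧ 0 < A ∧ 0 < B ∧ 0 < C ∧ A ^ p + B ^ q = C ^ r ∧
      a * t = A ^ p ∧ b * t = B ^ q ∧ (a + b) * t = C ^ r ∧ Nat.gcd (A ^ p) (C ^ r) = t ∧
      (t : ℝ) ≤ ((C ^ r : ℕ) : ℝ) ^ δ ∧
      A.primeFactors = (a * b * (a + b)).primeFactors ∧
      B.primeFactors = (a * b * (a + b)).primeFactors ∧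
      C.primeFactors = (a * b * (a + b)).primeFactors := by
  obtain ⟨t, A, B, C, ht, hA, hB, hC, hd, eA, eB, eC, fA, fB, fC⟩ :=
    twist hp hq hr hpq hpr hqr ha hb hab
  refine ⟨t, A, B, C, ht, hA, hB, hC, ?_, eA, eB, eC, ?_, ?_, fA, fB, fC⟩
  · rw [← eA, ← eB, ← eC]; ring
  · rw [← eA, ← eC]; exact gcd_twist hab
  · have hR : (1 : ℝ) ≤ (rad (a * b * (a + b)) : ℝ) := by exact_mod_cast rad_pos _
    have hR0 : (0 : ℝ) < (rad (a * b * (a + b)) : ℝ) := by linarith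
    have ht1 : (t : ℝ) ≤ (rad (a * b * (a + b)) : ℝ) ^ (p * q * r : ℕ) := by
      exact_mod_cast Nat.le_of_dvd (pow_pos (rad_pos _) _) hd
    have htp : (0 : ℝ) < t := by exact_mod_cast ht
    have hcp : (0 : ℝ) < ((a + b : ℕ) : ℝ) := by positivity
    have h2 : (t : ℝ) ^ (1 - δ) ≤ ((a + b : ℕ) : ℝ) ^ δ := by
      calc (t : ℝ) ^ (1 - δ) ≤ ((rad (a * b * (a + b)) : ℝ) ^ (p * q * r : ℕ)) ^ (1 - δ) :=
            Real.rpow_le_rpow htp.le ht1 (by linarith)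
        _ = ((rad (a * b * (a + b)) : ℝ) ^ ((p * q * r : ℝ) * (1 - δ) / δ)) ^ δ := by
            rw [← Real.rpow_natCast, ← Real.rpow_mul hR0.le, ← Real.rpow_mul hR0.le]
            congr 1
            push_cast
            field_simp
        _ ≤ ((a + b : ℕ) : ℝ) ^ δ := Real.rpow_le_rpow (by positivity) hv h0.le
    have h3 : ((C ^ r : ℕ) : ℝ) ^ δ = ((a + b : ℕ) : ℝ) ^ δ * (t : ℝ) ^ δ := by
      rw [← eC]; push_cast
      rw [Real.mul_rpow (by positivity) htp.le]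
    rw [h3]
    calc (t : ℝ) = (t : ℝ) ^ (1 - δ) * (t : ℝ) ^ δ := by
          rw [← Real.rpow_add htp]; simp
      _ ≤ _ := mul_le_mul_of_nonneg_right h2 (by positivity)

theorem transfer_full {E : ℕ} {δ : ℝ} (h0 : 0 < δ) (h1 : δ ≤ 1) {a b : ℕ}
    (ha : 0 < a) (hb : 0 < b) (hab : a.Coprime b)
    (hv : (rad (a * b * (a + b)) : ℝ) ^ ((E : ℝ) * (1 - δ) / δ) ≤ ((a + b : ℕ) : ℝ)) :
    ∃ t : ℕ, 0 < t ∧ (∀ x, x ∣ a * b * (a + b) → ∀ l : ℕ, l.Prime → l ∣ x * t → l ^ E ∣ x * t) ∧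
      Nat.gcd (a * t) (b * t) = t ∧ (t : ℝ) ≤ (((a + b) * t : ℕ) : ℝ) ^ δ := by
  refine ⟨rad (a * b * (a + b)) ^ E, pow_pos (rad_pos _) _, ?_, ?_, ?_⟩
  · intro x hx l hl hd
    have h2 : l ∣ a * b * (a + b) := by
      rcases (Nat.Prime.dvd_mul hl).1 hd with h | h
      · exact h.trans hx
      · exact (hl.dvd_of_dvd_pow h).trans (Nat.prod_primeFactors_dvd _)
    have h3 : l ∣ rad (a * b * (a + b)) :=
      Finset.dvd_prod_of_mem _ (Nat.mem_primeFactors.2 ⟨hl, h2, by positivity⟩)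
    exact Dvd.dvd.mul_left (pow_dvd_pow_of_dvd h3 E) _
  · rw [Nat.gcd_mul_right, hab.gcd_eq_one, one_mul]
  · set t := rad (a * b * (a + b)) ^ E with htd
    have hR : (1 : ℝ) ≤ (rad (a * b * (a + b)) : ℝ) := by exact_mod_cast rad_pos _
    have hR0 : (0 : ℝ) < (rad (a * b * (a + b)) : ℝ) := by linarith
    have htp : (0 : ℝ) < t := by exact_mod_cast pow_pos (rad_pos _) _
    have h2 : (t : ℝ) ^ (1 - δ) ≤ ((a + b : ℕ) : ℝ) ^ δ := by
      calc (t : ℝ) ^ (1 - δ) = ((rad (a * b * (a + b)) : ℝ) ^ (E : ℕ)) ^ (1 - δ) := by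
            rw [htd]; push_cast; rfl
        _ = ((rad (a * b * (a + b)) : ℝ) ^ ((E : ℝ) * (1 - δ) / δ)) ^ δ := by
            rw [← Real.rpow_natCast, ← Real.rpow_mul hR0.le, ← Real.rpow_mul hR0.le]
            congr 1
            field_simp
        _ ≤ ((a + b : ℕ) : ℝ) ^ δ := Real.rpow_le_rpow (by positivity) hv h0.le
    have h3 : (((a + b) * t : ℕ) : ℝ) ^ δ = ((a + b : ℕ) : ℝ) ^ δ * (t : ℝ) ^ δ := by
      push_cast
      rw [Real.mul_rpow (by positivity) htp.le]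
    rw [h3]
    calc (t : ℝ) = (t : ℝ) ^ (1 - δ) * (t : ℝ) ^ δ := by
          rw [← Real.rpow_add htp]; simp
      _ ≤ _ := mul_le_mul_of_nonneg_right h2 (by positivity)

/-- dividing out the common factor -/
theorem reduce {x y z : ℕ} (hx : 0 < x) (hy : 0 < y) (hxy : x + y = z) :
    ∃ a b g : ℕ, 0 < a ∧ 0 < b ∧ 0 < g ∧ a.Coprime b ∧ a * g = x ∧ b * g = y ∧
      (a + b) * g = z ∧ Nat.gcd x z = g ∧ Nat.gcd x y = g := by
  have hg : 0 < Nat.gcd x y := Nat.gcd_pos_of_pos_left _ hx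
  obtain ⟨a, b, hab, ha, hb⟩ := Nat.exists_coprime x y
  refine ⟨a, b, Nat.gcd x y, ?_, ?_, hg, hab, ha.symm, hb.symm, ?_, ?_, rfl⟩
  · rcases Nat.eq_zero_or_pos a with h | h
    · rw [h, zero_mul] at ha; omega
    · exact h
  · rcases Nat.eq_zero_or_pos b with h | h
    · rw [h, zero_mul] at hb; omega
    · exact h
  · rw [add_mul, ← ha, ← hb, hxy]
  · rw [← hxy, add_comm]; simp

theorem mul_le_rpow {A p N : ℕ} (hp : 0 < p) (h : A ^ p ≤ N) : (A : ℝ) ≤ (N : ℝ) ^ (1 / (p : ℝ)) := by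
  have hp' : (0 : ℝ) < p := by exact_mod_cast hp
  have h1 : (A : ℝ) = ((A : ℝ) ^ (p : ℕ)) ^ (1 / (p : ℝ)) := by
    rw [← Real.rpow_natCast, ← Real.rpow_mul (by positivity)]
    rw [mul_one_div_cancel hp'.ne', Real.rpow_one]
  rw [h1]
  exact Real.rpow_le_rpow (by positivity) (by exact_mod_cast h) (by positivity)

/-- almost coprime solutions give violating triples -/
theorem back {p q r : ℕ} (hp : 0 < p) (hq : 0 < q) (hr : 0 < r) {M : ℝ} (hM : 0 ≤ M) {A B C : ℕ}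
    (hA : 0 < A) (hB : 0 < B) (hC : 0 < C) (h : A ^ p + B ^ q = C ^ r)
    (hv : (Nat.gcd (A ^ p) (C ^ r) : ℝ) ≤
      ((C ^ r : ℕ) : ℝ) ^ (1 - M * (1 / (p : ℝ) + 1 / (q : ℝ) + 1 / (r : ℝ)))) :
    ∃ a b g : ℕ, 0 < a ∧ 0 < b ∧ 0 < g ∧ a.Coprime b ∧ a * g = A ^ p ∧ b * g = B ^ q ∧
      (a + b) * g = C ^ r ∧ (rad (a * b * (a + b)) : ℝ) ^ M ≤ ((a + b : ℕ) : ℝ) := by
  obtain ⟨a, b, g, ha, hb, hg, hab, ea, eb, ec, hgc, -⟩ :=
    reduce (pow_pos hA p) (pow_pos hB q) h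
  refine ⟨a, b, g, ha, hb, hg, hab, ea, eb, ec, ?_⟩
  rw [hgc] at hv
  have hN : 0 < C ^ r := pow_pos hC r
  have hN' : (0 : ℝ) < ((C ^ r : ℕ) : ℝ) := by exact_mod_cast hN
  set σ : ℝ := 1 / (p : ℝ) + 1 / (q : ℝ) + 1 / (r : ℝ) with hσ
  have hAp : (A : ℝ) ≤ ((C ^ r : ℕ) : ℝ) ^ (1 / (p : ℝ)) := mul_le_rpow hp (by omega)
  have hBp : (B : ℝ) ≤ ((C ^ r : ℕ) : ℝ) ^ (1 / (q : ℝ)) := mul_le_rpow hq (by omega)
  have hCp : (C : ℝ) ≤ ((C ^ r : ℕ) : ℝ) ^ (1 / (r : ℝ)) := mul_le_rpow hr le_rfl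
  have hrad : rad (a * b * (a + b)) ≤ A * B * C := by
    refine le_trans ?_ (rad_le (by positivity))
    have h1 : (a * b * (a + b)).primeFactors ⊆ (A * B * C).primeFactors := by
      intro l hl
      have hlp := Nat.prime_of_mem_primeFactors hl
      refine Nat.mem_primeFactors.2 ⟨hlp, ?_, by positivity⟩
      rcases (Nat.Prime.dvd_mul hlp).1 (Nat.dvd_of_mem_primeFactors hl) with h2 | h2
      · rcases (Nat.Prime.dvd_mul hlp).1 h2 with h3 | h3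
        · have : l ∣ A ^ p := ea ▸ Dvd.dvd.mul_right h3 g
          exact Dvd.dvd.mul_right (Dvd.dvd.mul_right (hlp.dvd_of_dvd_pow this) _) _
        · have : l ∣ B ^ q := eb ▸ Dvd.dvd.mul_right h3 g
          exact Dvd.dvd.mul_right (Dvd.dvd.mul_left (hlp.dvd_of_dvd_pow this) _) _
      · have : l ∣ C ^ r := ec ▸ Dvd.dvd.mul_right h2 g
        exact Dvd.dvd.mul_left (hlp.dvd_of_dvd_pow this) _
    exact Nat.le_of_dvd (rad_pos _) (Finset.prod_dvd_prod_of_subset _ _ _ h1)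
  have h4 : (rad (a * b * (a + b)) : ℝ) ≤ ((C ^ r : ℕ) : ℝ) ^ σ := by
    calc (rad (a * b * (a + b)) : ℝ) ≤ (A : ℝ) * B * C := by exact_mod_cast hrad
      _ ≤ ((C ^ r : ℕ) : ℝ) ^ (1 / (p : ℝ)) * ((C ^ r : ℕ) : ℝ) ^ (1 / (q : ℝ)) *
          ((C ^ r : ℕ) : ℝ) ^ (1 / (r : ℝ)) := by gcongr
      _ = _ := by rw [← Real.rpow_add hN', ← Real.rpow_add hN']
  have hgp : (0 : ℝ) < g := by exact_mod_cast hg
  have h5 : ((a + b : ℕ) : ℝ) = ((C ^ r : ℕ) : ℝ) / g := by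
    rw [← ec]; push_cast; field_simp
  rw [h5, le_div_iff₀ hgp]
  calc (rad (a * b * (a + b)) : ℝ) ^ M * g
      ≤ (((C ^ r : ℕ) : ℝ) ^ σ) ^ M * ((C ^ r : ℕ) : ℝ) ^ (1 - M * σ) := by
        gcongr
    _ = ((C ^ r : ℕ) : ℝ) := by
        rw [← Real.rpow_mul hN'.le, ← Real.rpow_add hN']
        rw [show σ * M + (1 - M * σ) = 1 by ring, Real.rpow_one]

theorem back_full {E : ℕ} (hE : 0 < E) {M : ℝ} (hM : 0 ≤ M) {x y : ℕ} (hx : 0 < x) (hy : 0 < y)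
    (fx : ∀ l : ℕ, l.Prime → l ∣ x → l ^ E ∣ x) (fy : ∀ l : ℕ, l.Prime → l ∣ y → l ^ E ∣ y)
    (fz : ∀ l : ℕ, l.Prime → l ∣ x + y → l ^ E ∣ x + y)
    (hv : (Nat.gcd x y : ℝ) ≤ ((x + y : ℕ) : ℝ) ^ (1 - M * (3 / (E : ℝ)))) :
    ∃ a b g : ℕ, 0 < a ∧ 0 < b ∧ 0 < g ∧ a.Coprime b ∧ a * g = x ∧ b * g = y ∧
      (a + b) * g = x + y ∧ (rad (a * b * (a + b)) : ℝ) ^ M ≤ ((a + b : ℕ) : ℝ) := by
  obtain ⟨a, b, g, ha, hb, hg, hab, ea, eb, ec, -, hgc⟩ := reduce hx hy rfl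
  refine ⟨a, b, g, ha, hb, hg, hab, ea, eb, ec, ?_⟩
  rw [hgc] at hv
  have hN : 0 < x + y := by omega
  have hN' : (0 : ℝ) < ((x + y : ℕ) : ℝ) := by exact_mod_cast hN
  have hE' : (0 : ℝ) < E := by exact_mod_cast hE
  have hfull : ∀ l : ℕ, l.Prime → l ∣ x * y * (x + y) → l ^ E ∣ x * y * (x + y) := by
    intro l hl h
    rcases (Nat.Prime.dvd_mul hl).1 h with h2 | h2
    · rcases (Nat.Prime.dvd_mul hl).1 h2 with h3 | h3
      · exact Dvd.dvd.mul_right (Dvd.dvd.mul_right (fx l hl h3) _) _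
      · exact Dvd.dvd.mul_right (Dvd.dvd.mul_left (fy l hl h3) _) _
    · exact Dvd.dvd.mul_left (fz l hl h2) _
  have hrad : rad (a * b * (a + b)) ^ E ≤ (x + y) ^ 3 := by
    have h1 : rad (a * b * (a + b)) ≤ rad (x * y * (x + y)) := by
      refine rad_mono ?_ (by positivity)
      refine Nat.mul_dvd_mul (Nat.mul_dvd_mul ?_ ?_) ?_
      · rw [← ea]; exact dvd_mul_right _ _
      · rw [← eb]; exact dvd_mul_right _ _
      · rw [← ec]; exact dvd_mul_right _ _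
    calc rad (a * b * (a + b)) ^ E ≤ rad (x * y * (x + y)) ^ E := Nat.pow_le_pow_left h1 _
      _ ≤ x * y * (x + y) := Nat.le_of_dvd (by positivity) (pow_dvd_full hfull)
      _ ≤ (x + y) * (x + y) * (x + y) := by gcongr <;> omega
      _ = (x + y) ^ 3 := by ring
  have h4 : (rad (a * b * (a + b)) : ℝ) ≤ ((x + y : ℕ) : ℝ) ^ (3 / (E : ℝ)) := by
    have := mul_le_rpow hE hrad
    refine this.trans_eq ?_
    push_cast
    rw [← Real.rpow_natCast, ← Real.rpow_mul (by positivity)]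
    congr 1
    push_cast; ring
  have hgp : (0 : ℝ) < g := by exact_mod_cast hg
  have h5 : ((a + b : ℕ) : ℝ) = ((x + y : ℕ) : ℝ) / g := by
    rw [← ec]; push_cast; field_simp
  rw [h5, le_div_iff₀ hgp]
  calc (rad (a * b * (a + b)) : ℝ) ^ M * g
      ≤ (((x + y : ℕ) : ℝ) ^ (3 / (E : ℝ))) ^ M * ((x + y : ℕ) : ℝ) ^ (1 - M * (3 / (E : ℝ))) := by
        gcongr
    _ = ((x + y : ℕ) : ℝ) := by
        rw [← Real.rpow_mul hN'.le, ← Real.rpow_add hN']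
        rw [show (3 / (E : ℝ)) * M + (1 - M * (3 / (E : ℝ))) = 1 by ring, Real.rpow_one]

end Pool.Agent.U514.WA
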