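import Mathlib
import Pool.Agent.U514.WA.Twist
import Pool.Agent.U514.WA.Main

/-! The critical exponent of the abc problem and common factors of `E`-full numbers. -/

set_option autoImplicit false

namespace Pool.Agent.U514.WA

open Real Filter Topology

/-- `n` is `E`-full -/
def Full (E n : ℕ) : Prop := ∀ l : ℕ, l.Prime → l ∣ n → l ^ E ∣ n

/-- `gcd (x, y) ≥ κ (x + y) ^ (1 - θ)` for `x`, `y`, `x + y` all `E`-full -/
def Common (E : ℕ) (θ : ℝ) : Prop :=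
  ∃ κ : ℝ, 0 < κ ∧ ∀ x y : ℕ, 0 < x → 0 < y → Full E x → Full E y → Full E (x + y) →
    κ * ((x + y : ℕ) : ℝ) ^ (1 - θ) ≤ (Nat.gcd x y : ℝ)

/-- `c ≤ K rad (abc) ^ M` for all coprime triples -/
def Expo (M : ℝ) : Prop :=
  ∃ K : ℝ, ∀ a b : ℕ, 0 < a → 0 < b → Nat.Coprime a b →
    ((a + b : ℕ) : ℝ) ≤ K * (rad (a * b * (a + b)) : ℝ) ^ M

theorem rad_one_le (n : ℕ) : (1 : ℝ) ≤ (rad n : ℝ) := by exact_mod_cast rad_pos n

theorem expo_mono {M N : ℝ} (h : M ≤ N) (hM : Expo M) : Expo N := by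
  obtain ⟨K, hK⟩ := hM
  refine ⟨K, fun a b ha hb hab => (hK a b ha hb hab).trans ?_⟩
  have h0 : (0 : ℝ) < ((a + b : ℕ) : ℝ) := by positivity
  have h1 := hK a b ha hb hab
  have h2 : (0 : ℝ) < (rad (a * b * (a + b)) : ℝ) ^ M := by
    have := rad_one_le (a * b * (a + b)); positivity
  have hK0 : 0 ≤ K := by
    by_contra hcon
    push Not at hcon
    nlinarith
  exact mul_le_mul_of_nonneg_left
    (Real.rpow_le_rpow_of_exponent_le (rad_one_le _) h) hK0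

theorem common_mono {E : ℕ} {θ φ : ℝ} (h : θ ≤ φ) (hθ : Common E θ) : Common E φ := by
  obtain ⟨κ, h0, hκ⟩ := hθ
  refine ⟨κ, h0, fun x y hx hy fx fy fz => le_trans ?_ (hκ x y hx hy fx fy fz)⟩
  have h1 : (1 : ℝ) ≤ ((x + y : ℕ) : ℝ) := by exact_mod_cast (by omega : 1 ≤ x + y)
  exact mul_le_mul_of_nonneg_left
    (Real.rpow_le_rpow_of_exponent_le h1 (by linarith)) h0.le

theorem common_one (E : ℕ) : Common E 1 := by
  refine ⟨1, one_pos, fun x y hx hy _ _ _ => ?_⟩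
  simp only [sub_self, Real.rpow_zero, mul_one]
  exact_mod_cast Nat.gcd_pos_of_pos_left _ hx

/-- the basic inequality -/
theorem key {E : ℕ} {θ κ : ℝ}
    (h : ∀ x y : ℕ, 0 < x → 0 < y → Full E x → Full E y → Full E (x + y) →
      κ * ((x + y : ℕ) : ℝ) ^ (1 - θ) ≤ (Nat.gcd x y : ℝ))
    {a b : ℕ} (ha : 0 < a) (hb : 0 < b) (hab : a.Coprime b) :
    κ * ((a + b : ℕ) : ℝ) ^ (1 - θ) ≤ (rad (a * b * (a + b)) : ℝ) ^ ((E : ℝ) * θ) := by
  set R := rad (a * b * (a + b)) with hR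
  have hR1 : (1 : ℝ) ≤ (R : ℝ) := rad_one_le _
  have hR0 : (0 : ℝ) < (R : ℝ) := by linarith
  have hfull : ∀ x, x ∣ a * b * (a + b) → Full E (x * R ^ E) := by
    intro x hx l hl hd
    have h2 : l ∣ a * b * (a + b) := by
      rcases (Nat.Prime.dvd_mul hl).1 hd with h | h
      · exact h.trans hx
      · exact (hl.dvd_of_dvd_pow h).trans (Nat.prod_primeFactors_dvd _)
    have h3 : l ∣ R :=
      Finset.dvd_prod_of_mem _ (Nat.mem_primeFactors.2 ⟨hl, h2, by positivity⟩)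
    exact Dvd.dvd.mul_left (pow_dvd_pow_of_dvd h3 E) _
  have hRE : 0 < R ^ E := pow_pos (rad_pos _) _
  have ec : a * R ^ E + b * R ^ E = (a + b) * R ^ E := by ring
  have h1 := h (a * R ^ E) (b * R ^ E) (by positivity) (by positivity)
    (hfull a (Dvd.dvd.mul_right (dvd_mul_right _ _) _))
    (hfull b (Dvd.dvd.mul_right (dvd_mul_left _ _) _))
    (by rw [ec]; exact hfull (a + b) (dvd_mul_left _ _))
  rw [Nat.gcd_mul_right, hab.gcd_eq_one, one_mul, ec] at h1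
  have htp : (0 : ℝ) < (R : ℝ) ^ (E : ℝ) := by positivity
  have e1 : (((a + b) * R ^ E : ℕ) : ℝ) = ((a + b : ℕ) : ℝ) * (R : ℝ) ^ (E : ℝ) := by
    rw [Real.rpow_natCast]; push_cast; ring
  have e2 : ((R ^ E : ℕ) : ℝ) = (R : ℝ) ^ (E : ℝ) := by
    rw [Real.rpow_natCast]; push_cast; ring
  rw [e1, e2, Real.mul_rpow (by positivity) htp.le] at h1
  have h2 : κ * ((a + b : ℕ) : ℝ) ^ (1 - θ) * ((R : ℝ) ^ (E : ℝ)) ^ (1 - θ) ≤
      ((R : ℝ) ^ (E : ℝ)) ^ θ * ((R : ℝ) ^ (E : ℝ)) ^ (1 - θ) := by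
    rw [← Real.rpow_add htp]
    simp only [add_sub_cancel, Real.rpow_one]
    linarith
  have h3 := le_of_mul_le_mul_right h2 (by positivity)
  rwa [← Real.rpow_mul hR0.le] at h3

/-- common factors of full numbers bound the triples -/
theorem expo_of_common {E : ℕ} {θ : ℝ} (hθ : θ < 1) (h : Common E θ) :
    Expo ((E : ℝ) * θ / (1 - θ)) := by
  obtain ⟨κ, h0, hκ⟩ := h
  have hd : 0 < 1 - θ := by linarith
  refine ⟨(κ⁻¹) ^ (1 - θ)⁻¹, fun a b ha hb hab => ?_⟩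
  have h1 := key hκ ha hb hab
  have hR0 : (0 : ℝ) < (rad (a * b * (a + b)) : ℝ) := by linarith [rad_one_le (a * b * (a + b))]
  have hc : (0 : ℝ) < ((a + b : ℕ) : ℝ) := by positivity
  have h2 : ((a + b : ℕ) : ℝ) ^ (1 - θ) ≤ κ⁻¹ * (rad (a * b * (a + b)) : ℝ) ^ ((E : ℝ) * θ) := by
    rw [inv_mul_eq_div, le_div_iff₀ h0]; linarith
  have h3 := Real.rpow_le_rpow (by positivity) h2 (inv_nonneg.2 hd.le)
  rw [← Real.rpow_mul hc.le, mul_inv_cancel₀ hd.ne', Real.rpow_one,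
    Real.mul_rpow (by positivity) (by positivity), ← Real.rpow_mul hR0.le] at h3
  rwa [div_eq_mul_inv]

/-- triples bound the common factors of full numbers -/
theorem common_of_expo {E : ℕ} {M : ℝ} (hM : 0 < M) (hE : 2 * M < E) (h : Expo M) :
    Common E (M / (E - 2 * M)) := by
  obtain ⟨K, hK⟩ := h
  have hd : 0 < (E : ℝ) - 2 * M := by linarith
  have hE0 : (0 : ℝ) < E := by linarith
  have hEn : 0 < E := by exact_mod_cast hE0
  have hKpos : 0 < K := by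
    have h1 := hK 1 1 one_pos one_pos (by norm_num)
    have h2 : (0 : ℝ) < (rad (1 * 1 * (1 + 1)) : ℝ) ^ M := by
      have := rad_one_le (1 * 1 * (1 + 1)); positivity
    by_contra hcon
    push Not at hcon
    have : K * (rad (1 * 1 * (1 + 1)) : ℝ) ^ M ≤ 0 := mul_nonpos_of_nonpos_of_nonneg hcon h2.le
    push_cast at h1
    linarith
  -- exponent: g ^ (1 - 2 M / E) ≥ K⁻¹ z ^ (1 - 3 M / E)
  set s : ℝ := M / E with hs
  have hs0 : 0 < s := by positivity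
  have hs2 : 0 < 1 - 2 * s := by
    rw [hs]; rw [sub_pos, ← mul_div_assoc, div_lt_one hE0]; exact hE
  refine ⟨(K⁻¹) ^ (1 - 2 * s)⁻¹, by positivity, fun x y hx hy fx fy fz => ?_⟩
  obtain ⟨a, b, g, ha, hb, hg, hab, ea, eb, ec, -, hgc⟩ := reduce hx hy rfl
  rw [hgc]
  have h1 := hK a b ha hb hab
  have hgp : (0 : ℝ) < g := by exact_mod_cast hg
  have hcp : (0 : ℝ) < ((a + b : ℕ) : ℝ) := by positivity
  set c : ℝ := ((a + b : ℕ) : ℝ) with hc
  have hz : ((x + y : ℕ) : ℝ) = c * g := by rw [hc, ← ec]; push_cast; ring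
  -- the radical
  have hdv : rad (a * b * (a + b)) ^ E ∣ a * b * (a + b) * g := by
    rw [rad, ← Finset.prod_pow]
    refine Finset.prod_dvd_of_isRelPrime ?_ ?_
    · intro x hx y hy hxy
      have hx' := Nat.prime_of_mem_primeFactors hx
      have hy' := Nat.prime_of_mem_primeFactors hy
      exact Nat.coprime_iff_isRelPrime.1
        (Nat.Coprime.pow _ _ ((Nat.coprime_primes hx' hy').2 hxy))
    · intro l hl
      have hlp := Nat.prime_of_mem_primeFactors hl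
      rcases (Nat.Prime.dvd_mul hlp).1 (Nat.dvd_of_mem_primeFactors hl) with h2 | h2
      · rcases (Nat.Prime.dvd_mul hlp).1 h2 with h3 | h3
        · have h4 : l ^ E ∣ a * g := ea ▸ fx l hlp (ea ▸ Dvd.dvd.mul_right h3 g)
          exact h4.trans ⟨b * (a + b), by ring⟩
        · have h4 : l ^ E ∣ b * g := eb ▸ fy l hlp (eb ▸ Dvd.dvd.mul_right h3 g)
          exact h4.trans ⟨a * (a + b), by ring⟩
      · have h4 : l ^ E ∣ (a + b) * g := ec ▸ fz l hlp (ec ▸ Dvd.dvd.mul_right h2 g)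
        exact h4.trans ⟨a * b, by ring⟩
  have hR : rad (a * b * (a + b)) ^ E ≤ (a + b) ^ 3 * g := by
    refine (Nat.le_of_dvd (by positivity) hdv).trans ?_
    have : a * b * (a + b) ≤ (a + b) * (a + b) * (a + b) := by gcongr <;> omega
    calc a * b * (a + b) * g ≤ (a + b) * (a + b) * (a + b) * g := Nat.mul_le_mul_right _ this
      _ = (a + b) ^ 3 * g := by ring
  have hR1 : (rad (a * b * (a + b)) : ℝ) ^ M ≤ (c ^ 3 * g) ^ s := by
    have h2 : (rad (a * b * (a + b)) : ℝ) ≤ (c ^ 3 * g) ^ (1 / (E : ℝ)) := by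
      have := mul_le_rpow hEn hR
      refine this.trans_eq ?_
      rw [hc]; push_cast; ring_nf
    calc (rad (a * b * (a + b)) : ℝ) ^ M ≤ ((c ^ 3 * g) ^ (1 / (E : ℝ))) ^ M :=
          Real.rpow_le_rpow (by positivity) h2 hM.le
      _ = (c ^ 3 * g) ^ s := by
          rw [← Real.rpow_mul (by positivity)]; congr 1; rw [hs]; ring
  have h5 : c ≤ K * (c ^ 3 * g) ^ s := h1.trans (mul_le_mul_of_nonneg_left hR1 hKpos.le)
  have h6 : (c ^ 3 * g) ^ s = c ^ (3 * s) * (g : ℝ) ^ s := by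
    rw [Real.mul_rpow (by positivity) hgp.le, ← Real.rpow_natCast, ← Real.rpow_mul hcp.le]
    norm_num
  rw [h6] at h5
  -- c ^ (1 - 3 s) ≤ K g ^ s
  have h7 : K⁻¹ * c ^ (1 - 3 * s) ≤ (g : ℝ) ^ s := by
    have e : c = c ^ (1 - 3 * s) * c ^ (3 * s) := by
      rw [← Real.rpow_add hcp]; simp
    have h8 : c ^ (1 - 3 * s) * c ^ (3 * s) ≤ (K * (g : ℝ) ^ s) * c ^ (3 * s) := by
      rw [← e]; linarith
    have h9 := le_of_mul_le_mul_right h8 (by positivity)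
    rw [inv_mul_le_iff₀ hKpos]; exact h9
  have h8 : K⁻¹ * (c * g) ^ (1 - 3 * s) ≤ (g : ℝ) ^ (1 - 2 * s) := by
    rw [Real.mul_rpow hcp.le hgp.le]
    calc K⁻¹ * (c ^ (1 - 3 * s) * (g : ℝ) ^ (1 - 3 * s))
        = (K⁻¹ * c ^ (1 - 3 * s)) * (g : ℝ) ^ (1 - 3 * s) := by ring
      _ ≤ (g : ℝ) ^ s * (g : ℝ) ^ (1 - 3 * s) := by gcongr
      _ = (g : ℝ) ^ (1 - 2 * s) := by rw [← Real.rpow_add hgp]; congr 1; ring
  have h9 := Real.rpow_le_rpow (by positivity) h8 (inv_nonneg.2 hs2.le)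
  rw [← Real.rpow_mul hgp.le, mul_inv_cancel₀ hs2.ne', Real.rpow_one,
    Real.mul_rpow (by positivity) (by positivity), ← Real.rpow_mul (by positivity)] at h9
  rw [hz]
  have e3 : 1 - M / ((E : ℝ) - 2 * M) = (1 - 3 * s) * (1 - 2 * s)⁻¹ := by
    have hne : (E : ℝ) - 2 * M ≠ 0 := hd.ne'
    have h12 : (1 - 2 * s) = (E - 2 * M) / E := by rw [hs]; field_simp
    have h13 : (1 - 3 * s) = (E - 3 * M) / E := by rw [hs]; field_simp
    rw [h12, h13, inv_div, div_mul_div_cancel₀ hE0.ne', eq_div_iff hne, sub_mul,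
      div_mul_cancel₀ _ hne]
    ring
  rw [e3]; exact h9

/-- the triples `(1, 9 ^ n - 1, 9 ^ n)` -/
theorem nines (n : ℕ) (hn : 0 < n) : ∃ a b : ℕ, 0 < a ∧ 0 < b ∧ a.Coprime b ∧ a + b = 9 ^ n ∧
    rad (a * b * (a + b)) ≤ 9 ^ n := by
  obtain ⟨k, hk⟩ : 8 ∣ 9 ^ n - 1 := by
    have := Nat.sub_dvd_pow_sub_pow 9 1 n
    simpa using this
  have h9 : 1 < 9 ^ n := Nat.one_lt_pow hn.ne' (by norm_num)
  have hk0 : 0 < k := by
    rcases Nat.eq_zero_or_pos k with h | h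
    · rw [h] at hk; omega
    · exact h
  refine ⟨1, 8 * k, one_pos, by omega, by simp, by omega, ?_⟩
  have hs : 1 + 8 * k = 9 ^ n := by omega
  rw [hs]
  have h1 : rad (1 * (8 * k) * 9 ^ n) ≤ rad (6 * k) := by
    refine Nat.le_of_dvd (rad_pos _) (Finset.prod_dvd_prod_of_subset _ _ _ ?_)
    intro l hl
    have hlp := Nat.prime_of_mem_primeFactors hl
    have hd := Nat.dvd_of_mem_primeFactors hl
    refine Nat.mem_primeFactors.2 ⟨hlp, ?_, by omega⟩
    rw [one_mul] at hd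
    rcases (Nat.Prime.dvd_mul hlp).1 hd with h2 | h2
    · rcases (Nat.Prime.dvd_mul hlp).1 h2 with h3 | h3
      · have : l ∣ 2 := hlp.dvd_of_dvd_pow (show l ∣ 2 ^ 3 by simpa using h3)
        exact (this.trans (by norm_num : 2 ∣ 6)).trans (dvd_mul_right _ _)
      · exact Dvd.dvd.mul_left h3 _
    · have h3 : l ∣ 9 := hlp.dvd_of_dvd_pow h2
      have : l ∣ 3 := hlp.dvd_of_dvd_pow (show l ∣ 3 ^ 2 by simpa using h3)
      exact (this.trans (by norm_num : 3 ∣ 6)).trans (dvd_mul_right _ _)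
  refine h1.trans ((rad_le (by omega)).trans (by omega))

theorem one_le_expo {M : ℝ} (h : Expo M) : 1 ≤ M := by
  by_contra hcon
  push Not at hcon
  set N := max M 0 with hN
  have hN1 : N < 1 := max_lt hcon one_pos
  obtain ⟨K, hK⟩ := expo_mono (le_max_left M 0) h
  have hlim : Tendsto (fun n : ℕ => ((9 : ℝ) ^ n) ^ (1 - N)) atTop atTop :=
    (tendsto_rpow_atTop (by linarith : 0 < 1 - N)).comp
      (tendsto_pow_atTop_atTop_of_one_lt (by norm_num))
  obtain ⟨n, hn1, hn2⟩ := ((hlim.eventually_gt_atTop K).and (eventually_gt_atTop 0)).exists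
  obtain ⟨a, b, ha, hb, hab, hs, hr⟩ := nines n hn2
  have h1 := hK a b ha hb hab
  have hp : (0 : ℝ) < (9 : ℝ) ^ n := by positivity
  have h2 : (rad (a * b * (a + b)) : ℝ) ^ N ≤ ((9 : ℝ) ^ n) ^ N := by
    refine Real.rpow_le_rpow (by positivity) (by exact_mod_cast hr) (le_max_right _ _)
  have hK0 : 0 ≤ K := by
    by_contra hK0
    push Not at hK0
    have : K * (rad (a * b * (a + b)) : ℝ) ^ N ≤ 0 :=
      mul_nonpos_of_nonpos_of_nonneg hK0.le (by positivity)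
    have : (0 : ℝ) < ((a + b : ℕ) : ℝ) := by positivity
    linarith
  rw [hs] at h1
  have h3 : (9 : ℝ) ^ n ≤ K * ((9 : ℝ) ^ n) ^ N := by
    have : ((9 ^ n : ℕ) : ℝ) = (9 : ℝ) ^ n := by push_cast; rfl
    rw [this] at h1
    rw [hs] at h2
    exact h1.trans (mul_le_mul_of_nonneg_left h2 hK0)
  have h4 : ((9 : ℝ) ^ n) ^ (1 - N) * ((9 : ℝ) ^ n) ^ N ≤ K * ((9 : ℝ) ^ n) ^ N := by
    rw [← Real.rpow_add hp]; simpa using h3
  have h5 := le_of_mul_le_mul_right h4 (by positivity)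
  linarith

theorem common_lower {E : ℕ} {θ : ℝ} (h : Common E θ) : 1 / ((E : ℝ) + 1) ≤ θ := by
  have hE : (0 : ℝ) < (E : ℝ) + 1 := by positivity
  rcases lt_or_ge θ 1 with h1 | h1
  · have h2 := one_le_expo (expo_of_common h1 h)
    have hd : 0 < 1 - θ := by linarith
    rw [le_div_iff₀ hd] at h2
    rw [div_le_iff₀ hE]
    nlinarith
  · refine le_trans ?_ h1
    rw [div_le_iff₀ hE]
    have : (0 : ℝ) ≤ E := Nat.cast_nonneg E
    linarith

end Pool.Agent.U514.WA
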