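import Mathlib
import Pool.Agent.U514.WA.Crit

/-! The gap theorem for the common factors of `E`-full numbers. -/

set_option autoImplicit false

namespace Pool.Agent.U514.WA

open Real Filter Topology

/-- the infimum of the `θ` with `gcd (x, y) ≫ (x + y) ^ (1 - θ)` -/
noncomputable def theta (E : ℕ) : ℝ := sInf {θ : ℝ | Common E θ}

/-- the infimum of the `M` with `c ≪ rad (abc) ^ M` -/
noncomputable def crit : ℝ := sInf {M : ℝ | Expo M}

theorem bdd_common (E : ℕ) : BddBelow {θ : ℝ | Common E θ} :=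
  ⟨1 / ((E : ℝ) + 1), fun _ h => common_lower h⟩

theorem bdd_expo : BddBelow {M : ℝ | Expo M} := ⟨1, fun _ h => one_le_expo h⟩

theorem theta_le_one (E : ℕ) : theta E ≤ 1 := csInf_le (bdd_common E) (common_one E)

theorem theta_lower (E : ℕ) : 1 / ((E : ℝ) + 1) ≤ theta E :=
  le_csInf ⟨1, common_one E⟩ fun _ h => common_lower h

theorem theta_one (h : ∀ M : ℝ, ¬ Expo M) (E : ℕ) : theta E = 1 := by
  refine le_antisymm (theta_le_one E) (le_csInf ⟨1, common_one E⟩ fun θ hθ => ?_)
  by_contra hcon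
  push Not at hcon
  exact h _ (expo_of_common hcon hθ)

theorem expo_of_crit_lt {N : ℝ} (h : ∃ M : ℝ, Expo M) (hN : crit < N) : Expo N := by
  obtain ⟨M, hM⟩ := h
  obtain ⟨M', hM', hlt⟩ := exists_lt_of_csInf_lt ⟨M, hM⟩ hN
  exact expo_mono hlt.le hM'

theorem one_le_crit (h : ∃ M : ℝ, Expo M) : 1 ≤ crit := by
  obtain ⟨M, hM⟩ := h
  exact le_csInf ⟨M, hM⟩ fun _ h => one_le_expo h

theorem sandwich_lower (h : ∃ M : ℝ, Expo M) (E : ℕ) : crit / ((E : ℝ) + crit) ≤ theta E := by
  have hc := one_le_crit h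
  have hE : (0 : ℝ) ≤ E := Nat.cast_nonneg E
  refine le_csInf ⟨1, common_one E⟩ fun θ hθ => ?_
  rw [div_le_iff₀ (by linarith)]
  rcases lt_or_ge θ 1 with h1 | h1
  · have h2 : crit ≤ (E : ℝ) * θ / (1 - θ) := csInf_le bdd_expo (expo_of_common h1 hθ)
    rw [le_div_iff₀ (by linarith)] at h2
    nlinarith
  · nlinarith

theorem sandwich_upper (h : ∃ M : ℝ, Expo M) (E : ℕ) (hE : 2 * crit < E) :
    theta E ≤ crit / ((E : ℝ) - 2 * crit) := by
  have hc := one_le_crit h
  have hlim : Tendsto (fun M : ℝ => M / ((E : ℝ) - 2 * M)) (𝓝[>] crit)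
      (𝓝 (crit / ((E : ℝ) - 2 * crit))) := by
    refine Tendsto.mono_left ?_ nhdsWithin_le_nhds
    refine ContinuousAt.tendsto ?_
    refine ContinuousAt.div continuousAt_id (by fun_prop) (by linarith)
  refine ge_of_tendsto hlim ?_
  have h1 : ∀ᶠ M in 𝓝[>] crit, M < (E : ℝ) / 2 :=
    (eventually_lt_nhds (by linarith : crit < (E : ℝ) / 2)).filter_mono nhdsWithin_le_nhds
  filter_upwards [h1, self_mem_nhdsWithin] with M hM1 hM2
  have hM2' : crit < M := hM2
  exact csInf_le (bdd_common E) (common_of_expo (by linarith) (by linarith)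
    (expo_of_crit_lt h hM2'))

theorem limit (h : ∃ M : ℝ, Expo M) :
    Tendsto (fun E : ℕ => (E : ℝ) * theta E) atTop (𝓝 crit) := by
  have hc := one_le_crit h
  have l1 : Tendsto (fun E : ℕ => crit / (1 + crit * (1 / (E : ℝ)))) atTop (𝓝 crit) := by
    have : Tendsto (fun E : ℕ => crit / (1 + crit * (1 / (E : ℝ)))) atTop
        (𝓝 (crit / (1 + crit * 0))) :=
      Tendsto.div tendsto_const_nhds
        (tendsto_const_nhds.add (tendsto_const_nhds.mul tendsto_one_div_atTop_nhds_zero_nat))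
        (by norm_num)
    simpa using this
  have l2 : Tendsto (fun E : ℕ => crit / (1 - 2 * crit * (1 / (E : ℝ)))) atTop (𝓝 crit) := by
    have : Tendsto (fun E : ℕ => crit / (1 - 2 * crit * (1 / (E : ℝ)))) atTop
        (𝓝 (crit / (1 - 2 * crit * 0))) :=
      Tendsto.div tendsto_const_nhds
        (tendsto_const_nhds.sub (tendsto_const_nhds.mul tendsto_one_div_atTop_nhds_zero_nat))
        (by norm_num)
    simpa using this
  have hev : ∀ᶠ E : ℕ in atTop, 2 * crit < (E : ℝ) :=
    tendsto_natCast_atTop_atTop.eventually_gt_atTop _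
  refine tendsto_of_tendsto_of_tendsto_of_le_of_le' l1 l2 ?_ ?_
  · filter_upwards [hev] with E hE
    have hE0 : (0 : ℝ) < E := by linarith
    have h1 := mul_le_mul_of_nonneg_left (sandwich_lower h E) hE0.le
    refine le_trans (le_of_eq ?_) h1
    field_simp
  · filter_upwards [hev] with E hE
    have hE0 : (0 : ℝ) < E := by linarith
    have h1 := mul_le_mul_of_nonneg_left (sandwich_upper h E hE) hE0.le
    refine h1.trans (le_of_eq ?_)
    have h2 : (E : ℝ) - 2 * crit ≠ 0 := by linarith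
    have h3 : 1 - 2 * crit * (1 / (E : ℝ)) = ((E : ℝ) - 2 * crit) / E := by field_simp
    rw [h3, div_div_eq_mul_div]
    ring

theorem abc_iff : (∀ ε : ℝ, 0 < ε → Expo (1 + ε)) ↔
    Tendsto (fun E : ℕ => (E : ℝ) * theta E) atTop (𝓝 1) := by
  constructor
  · intro h
    have hw : ∃ M : ℝ, Expo M := ⟨2, by have := h 1 one_pos; norm_num at this; exact this⟩
    have h1 : crit = 1 := by
      refine le_antisymm ?_ (one_le_crit hw)
      refine le_of_forall_pos_le_add fun ε hε => csInf_le bdd_expo (h ε hε)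
    rw [← h1]
    exact limit hw
  · intro h
    by_cases hw : ∃ M : ℝ, Expo M
    · have h1 : crit = 1 := tendsto_nhds_unique (limit hw) h
      intro ε hε
      exact expo_of_crit_lt hw (by linarith)
    · push Not at hw
      exfalso
      have h1 : (fun E : ℕ => (E : ℝ) * theta E) = fun E : ℕ => (E : ℝ) := by
        funext E; rw [theta_one hw E, mul_one]
      rw [h1] at h
      exact not_tendsto_nhds_of_tendsto_atTop tendsto_natCast_atTop_atTop _ h

end Pool.Agent.U514.WA
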